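import Pool.Agent.NPC.Defs

/-!
# Foremost coverage of periodic temporal trees: definitions

An instance `(n, E, s, S)` consists of the number `n` of vertices (the vertices are `0, …, n - 1`),
the list `E` of the edges `(u, v)`, `u < v`, of the underlying tree, the start vertex `s`, and the
list `S` of snapshots (the period is the number `p = S.length` of snapshots), each of which lists
the edges present at that step.
-/

namespace Pool.Agent.R543.DMVP

/-- An instance `(n, E, s, S)`: number of vertices, edges, start vertex, snapshots. -/
abbrev Inst := ℕ × List (ℕ × ℕ) × ℕ × List (List (ℕ × ℕ))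

/-- The number of vertices. -/
def Inst.n (I : Inst) : ℕ := I.1

/-- The edges of the underlying graph. -/
def Inst.E (I : Inst) : List (ℕ × ℕ) := I.2.1

/-- The start vertex. -/
def Inst.s (I : Inst) : ℕ := I.2.2.1

/-- The snapshots; their number is the period. -/
def Inst.S (I : Inst) : List (List (ℕ × ℕ)) := I.2.2.2

/-- The underlying graph. -/
def Inst.graph (I : Inst) : SimpleGraph (Fin I.n) :=
  SimpleGraph.fromRel (fun u v => (u.val, v.val) ∈ I.E)

/-- `I` is a periodic temporal tree with a start vertex: the edges are listed once each, as pairs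
`(u, v)` with `u < v < n`, they form a tree on `0, …, n - 1`, the start vertex is a vertex, the
period is at least one, every snapshot is a sublist of the edge list, and every edge is present at
least once per period. -/
def Inst.Valid (I : Inst) : Prop :=
  (∀ e ∈ I.E, e.1 < e.2 ∧ e.2 < I.n) ∧ I.E.Nodup ∧ I.graph.IsTree ∧ I.s < I.n ∧
    1 ≤ I.S.length ∧ (∀ L ∈ I.S, L.Sublist I.E) ∧ ∀ e ∈ I.E, ∃ L ∈ I.S, e ∈ L

/-- All vertices of the underlying graph have degree at most three. -/
def Inst.MaxDeg3 (I : Inst) : Prop := ∀ v, (I.graph.neighborSet v).ncard ≤ 3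

/-- The edge between `u` and `v` is present at time `τ`: it is listed in snapshot number
`τ mod p`. -/
def Inst.Present (I : Inst) (τ u v : ℕ) : Prop :=
  (u, v) ∈ I.S.getD (τ % I.S.length) [] ∨ (v, u) ∈ I.S.getD (τ % I.S.length) []

/-- `w` is a movement of the agent (`w τ` is its position at time `τ`): it starts at `s` at time
`0`, and in each time step it waits or crosses an edge present at this time. -/
def Inst.IsWalk (I : Inst) (w : ℕ → ℕ) : Prop :=
  w 0 = I.s ∧ ∀ τ, w (τ + 1) = w τ ∨ I.Present τ (w τ) (w (τ + 1))

/-- Some movement covers every vertex by time `t`. -/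
def Inst.CoveredBy (I : Inst) (t : ℕ) : Prop :=
  ∃ w, I.IsWalk w ∧ ∀ v < I.n, ∃ τ ≤ t, w τ = v

/-- `c` is the cover time: the least time by which some movement covers every vertex. -/
def Inst.IsCoverTime (I : Inst) (c : ℕ) : Prop := IsLeast {t | I.CoveredBy t} c

end Pool.Agent.R543.DMVP
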