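import Mathlib
import Pool.Agent.R543.DMVP.Defs

/-!
# Movements of the agent, built step by step; every valid instance has a cover time
-/

namespace Pool.Agent.R543.DMVP

/-- Some movement is at `u` at time `x` and has covered `C` by then. -/
def Reach (I : Inst) (x u : ℕ) (C : Set ℕ) : Prop :=
  ∃ w, I.IsWalk w ∧ w x = u ∧ ∀ c ∈ C, ∃ τ ≤ x, w τ = c

variable {I : Inst} {x y u v : ℕ} {C D : Set ℕ}

theorem Reach.start (I : Inst) : Reach I 0 I.s {I.s} :=
  ⟨fun _ => I.s, ⟨rfl, fun _ => Or.inl rfl⟩, rfl, fun c hc => ⟨0, le_rfl, hc.symm⟩⟩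

theorem Reach.mono (h : Reach I x u C) (hD : D ⊆ C) : Reach I x u D := by
  obtain ⟨w, h1, h2, h3⟩ := h
  exact ⟨w, h1, h2, fun c hc => h3 c (hD hc)⟩

theorem Reach.step (h : Reach I x u C) (hv : v = u ∨ I.Present x u v) :
    Reach I (x + 1) v (insert v C) := by
  obtain ⟨w, ⟨h0, h1⟩, h2, h3⟩ := h
  refine ⟨fun τ => if τ ≤ x then w τ else v, ⟨by simp [h0], fun τ => ?_⟩, by simp, ?_⟩
  · rcases lt_trichotomy τ x with h | h | h
    · simp only [show τ + 1 ≤ x by omega, show τ ≤ x by omega, if_true]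
      exact h1 τ
    · subst h
      simp only [show ¬ (τ + 1 ≤ τ) by omega, le_refl, if_true, if_false, h2]
      exact hv
    · simp [show ¬ (τ + 1 ≤ x) by omega, show ¬ (τ ≤ x) by omega]
  · intro c hc
    rcases hc with rfl | hc
    · exact ⟨x + 1, le_rfl, by simp⟩
    · obtain ⟨τ, hτ, hw⟩ := h3 c hc
      exact ⟨τ, by omega, by simp [hτ, hw]⟩

theorem Reach.wait (h : Reach I x u C) (hxy : x ≤ y) : Reach I y u C := by
  induction y, hxy using Nat.le_induction with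
  | base => exact h
  | succ y _ ih => exact (ih.step (Or.inl rfl)).mono (Set.subset_insert _ _)

theorem Reach.covered (h : Reach I x u C) (hC : ∀ v < I.n, v ∈ C) (hxy : x ≤ y) :
    I.CoveredBy y := by
  obtain ⟨w, h1, h2, h3⟩ := h
  refine ⟨w, h1, fun v hv => ?_⟩
  obtain ⟨τ, hτ, hw⟩ := h3 v (hC v hv)
  exact ⟨τ, by omega, hw⟩

theorem present_of_adj (hI : I.Valid) {a b : Fin I.n} (h : I.graph.Adj a b) (x : ℕ) :
    ∃ y, x ≤ y ∧ I.Present y a.val b.val := by
  obtain ⟨_, _, _, _, hp, _, hS⟩ := hI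
  have key : ∀ e ∈ I.E, ∃ y, x ≤ y ∧ e ∈ I.S.getD (y % I.S.length) [] := by
    intro e he
    obtain ⟨L, hL, heL⟩ := hS e he
    obtain ⟨k, hk, hkL⟩ := List.getElem_of_mem hL
    refine ⟨k + I.S.length * x, ?_, ?_⟩
    · nlinarith
    · rw [Nat.add_mul_mod_self_left, Nat.mod_eq_of_lt hk, List.getD_eq_getElem _ _ hk, hkL]
      exact heL
  rw [Inst.graph, SimpleGraph.fromRel_adj] at h
  rcases h.2 with h | h
  · obtain ⟨y, hy, hy'⟩ := key _ h
    exact ⟨y, hy, Or.inl hy'⟩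
  · obtain ⟨y, hy, hy'⟩ := key _ h
    exact ⟨y, hy, Or.inr hy'⟩

theorem Reach.walk (hI : I.Valid) {a b : Fin I.n} (p : I.graph.Walk a b) :
    ∀ (x : ℕ) (C : Set ℕ), Reach I x a.val C → ∃ y, Reach I y b.val (insert b.val C) := by
  induction p with
  | nil =>
    intro x C h
    exact ⟨x + 1, h.step (Or.inl rfl)⟩
  | cons hab p ih =>
    intro x C h
    obtain ⟨y, hy, hp⟩ := present_of_adj hI hab x
    obtain ⟨z, hz⟩ := ih _ _ ((h.wait hy).step (Or.inr hp))
    exact ⟨z, hz.mono (Set.insert_subset_insert (Set.subset_insert _ _))⟩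

theorem exists_covered (hI : I.Valid) : ∃ t, I.CoveredBy t := by
  have hc : I.graph.Connected := hI.2.2.1.1
  have hs : I.s < I.n := hI.2.2.2.1
  have key : ∀ k ≤ I.n, ∃ x, ∃ a : Fin I.n, Reach I x a.val {c | c < k} := by
    intro k
    induction k with
    | zero => exact fun _ => ⟨0, ⟨I.s, hs⟩, (Reach.start I).mono (by intro c hc; simp at hc)⟩
    | succ k ih =>
      intro hk
      obtain ⟨x, a, h⟩ := ih (by omega)
      obtain ⟨p⟩ := hc.preconnected a ⟨k, by omega⟩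
      obtain ⟨y, hy⟩ := Reach.walk hI p x _ h
      refine ⟨y, ⟨k, by omega⟩, hy.mono ?_⟩
      intro c hc
      simp only [Set.mem_setOf_eq] at hc
      rcases Nat.lt_or_ge c k with h | h
      · exact Or.inr h
      · exact Or.inl (show c = k by omega)
  obtain ⟨x, a, h⟩ := key I.n le_rfl
  exact ⟨x, h.covered (fun v hv => hv) le_rfl⟩

theorem CoveredBy.mono (h : I.CoveredBy x) (hxy : x ≤ y) : I.CoveredBy y := by
  obtain ⟨w, h1, h2⟩ := h
  refine ⟨w, h1, fun v hv => ?_⟩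
  obtain ⟨τ, hτ, hw⟩ := h2 v hv
  exact ⟨τ, hτ.trans hxy, hw⟩

theorem exists_coverTime (hI : I.Valid) : ∃ c, I.IsCoverTime c := by
  classical
  have h := exists_covered hI
  exact ⟨Nat.find h, Nat.find_spec h, fun t ht => Nat.find_min' h ht⟩

theorem coveredBy_iff {c t : ℕ} (hc : I.IsCoverTime c) : I.CoveredBy t ↔ c ≤ t :=
  ⟨fun h => hc.2 h, fun h => CoveredBy.mono hc.1 h⟩

end Pool.Agent.R543.DMVP
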