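import Mathlib

/-!
# Trees given by a parent function
-/

namespace Pool.Agent.R543.DMVP

variable {V : Type} {T : SimpleGraph V} {par : V → V} {o : V}

/-- Descendants of `v` with respect to a parent function. -/
inductive Desc (par : V → V) (o v : V) : V → Prop
  | refl : Desc par o v v
  | step (w : V) : w ≠ o → Desc par o v (par w) → Desc par o v w

theorem Desc.le {lev : V → ℕ} (hlev : ∀ v, v ≠ o → lev (par v) < lev v) {v w : V}
    (h : Desc par o v w) : lev v ≤ lev w := by
  induction h with
  | refl => exact le_rfl
  | step w hw _ ih => exact ih.trans (hlev w hw).le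

theorem isTree_of_parent (lev : V → ℕ) (hpar : ∀ v, v ≠ o → T.Adj v (par v))
    (hlev : ∀ v, v ≠ o → lev (par v) < lev v)
    (hadj : ∀ u v, T.Adj u v → (u ≠ o ∧ par u = v) ∨ (v ≠ o ∧ par v = u)) : T.IsTree := by
  constructor
  · have h : ∀ (n : ℕ) (v : V), lev v ≤ n → T.Reachable v o := by
      intro n
      induction n with
      | zero =>
        intro v hv
        by_cases hvo : v = o
        · rw [hvo]
        · have := hlev v hvo; omega
      | succ n ih =>
        intro v hv
        by_cases hvo : v = o
        · rw [hvo]
        · have := hlev v hvo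
          exact (hpar v hvo).reachable.trans (ih _ (by omega))
    exact (SimpleGraph.connected_iff _).mpr
      ⟨fun u v => (h _ u le_rfl).trans (h _ v le_rfl).symm, ⟨o⟩⟩
  · have key : ∀ v, v ≠ o → ¬ (T \ SimpleGraph.fromEdgeSet {s(v, par v)}).Reachable v (par v) := by
      intro v hv hr
      have hinv : ∀ w, (T \ SimpleGraph.fromEdgeSet {s(v, par v)}).Reachable v w →
          Desc par o v w := by
        intro w hw
        rw [SimpleGraph.reachable_iff_reflTransGen] at hw
        induction hw with
        | refl => exact Desc.refl
        | tail _ hbc ih =>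
          rename_i a b _
          rw [SimpleGraph.sdiff_adj, SimpleGraph.fromEdgeSet_adj] at hbc
          obtain ⟨h1, h2⟩ := hbc
          rcases hadj a b h1 with ⟨_, h3⟩ | ⟨h3, h4⟩
          · cases ih with
            | refl =>
              exfalso
              apply h2
              rw [← h3]
              exact ⟨rfl, (hpar v hv).ne⟩
            | step _ _ h5 => rwa [h3] at h5
          · exact Desc.step b h3 (by rw [h4]; exact ih)
      have h1 := (hinv _ hr).le hlev
      have h2 := hlev v hv
      omega
    rw [SimpleGraph.isAcyclic_iff_forall_adj_isBridge]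
    intro u v huv
    rw [SimpleGraph.isBridge_iff]
    rcases hadj u v huv with ⟨hu, h⟩ | ⟨hv, h⟩
    · rw [← h]; exact key u hu
    · rw [← h]
      intro hr
      apply key v hv
      rw [Sym2.eq_swap]
      exact hr.symm

end Pool.Agent.R543.DMVP
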