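import Mathlib
import Pool.Agent.NPC.Sat2
import Pool.Agent.H671R2.PolyAuto
import Pool.Agent.R543.DMVP.Reach
import Pool.Agent.R543.DMVP.Tree

/-!
# The reduction from 3SAT to foremost coverage of caterpillars
-/

namespace Pool.Agent.NPC.R543.DMVP

open Pool.Agent.R543.DMVP

/-- formulas -/
abbrev F3 := List (Lit ℕ × Lit ℕ × Lit ℕ)

/-- the time of position `x` of half block `q` -/
def tm (N q x : ℕ) : ℕ := (4 * N + 1) * (1 + q * (2 * N + 2) + x)

/-- the half block in which a true literal can be used -/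
def hb (l : Lit ℕ) : ℕ := 2 * l.2 + (bif l.1 then 1 else 0)

/-- the times of the slots of clause number `j` -/
def slots (N j : ℕ) (c : Lit ℕ × Lit ℕ × Lit ℕ) : List ℕ :=
  [c.1, c.2.1, c.2.2].flatMap (fun l => [tm N (hb l) (1 + 2 * j), tm N (hb l) (2 + 2 * j)])

/-- the times at which the leaf edge number `i` is present -/
def ltimes (φ : F3) (i : ℕ) : List ℕ :=
  if i ≤ 3 * φ.length then
    [tm φ.length (2 * i) 0, tm φ.length (2 * i + 1) 0, tm φ.length (2 * i + 1) (2 * φ.length + 1)]
  else slots φ.length (i - (3 * φ.length + 1))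
    (φ.getD (i - (3 * φ.length + 1)) ((true, 0), (true, 0), (true, 0)))

/-- the edges -/
def edges (N : ℕ) : List (ℕ × ℕ) :=
  (List.range (4 * N)).map (fun i => (i, i + 1)) ++
    (List.range (4 * N + 1)).map (fun i => (i, 4 * N + 1 + i))

/-- the snapshot at time `x` -/
def snap (φ : F3) (x : ℕ) : List (ℕ × ℕ) :=
  (edges φ.length).filter (fun e => decide (e.2 = e.1 + 1) || decide (x ∈ ltimes φ e.1))

/-- the deadline, which is also the period -/
def TT (N : ℕ) : ℕ := tm N (6 * N) 0 + 1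

/-- the instance -/
def inst (φ : F3) : Inst := (8 * φ.length + 2, edges φ.length, 0,
  (List.range (TT φ.length)).map (snap φ))

theorem poly_inst : Poly (fun φ : F3 => (inst φ, TT φ.length)) := by
  have hr : Poly (fun φ : F3 => List.range (TT φ.length)) := by
    refine UPoly.range ?_
    have hl : UPoly (fun φ : F3 => φ.length) := UPoly.length Poly.id
    have e : ∀ φ : F3, TT φ.length =
        (4 * φ.length + 1) * (1 + (6 * φ.length) * (2 * φ.length + 2)) + 1 := by
      intro φ
      rfl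
    have : UPoly (fun φ : F3 =>
        (4 * φ.length + 1) * (1 + (6 * φ.length) * (2 * φ.length + 2)) + 1) := by
      refine UPoly.add (UPoly.mul (UPoly.add (UPoly.mul (UPoly.const 4) hl) (UPoly.const 1))
        (UPoly.add (UPoly.const 1) (UPoly.mul (UPoly.mul (UPoly.const 6) hl)
          (UPoly.add (UPoly.mul (UPoly.const 2) hl) (UPoly.const 2))))) (UPoly.const 1)
    exact this
  have hr1 : Poly (fun φ : F3 => List.range (4 * φ.length)) :=
    UPoly.range (UPoly.mul (UPoly.const 4) (UPoly.length Poly.id))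
  have hr2 : Poly (fun φ : F3 => List.range (4 * φ.length + 1)) :=
    UPoly.range (UPoly.add (UPoly.mul (UPoly.const 4) (UPoly.length Poly.id)) (UPoly.const 1))
  have hE : Poly (fun φ : F3 => edges φ.length) := by
    unfold edges
    fun_prop
  have htm : Poly (fun p : ℕ × ℕ × ℕ => tm p.1 p.2.1 p.2.2) := by
    unfold tm
    fun_prop
  have hhb : Poly hb := by
    unfold hb
    fun_prop
  have hsl : Poly (fun p : ℕ × ℕ × (Lit ℕ × Lit ℕ × Lit ℕ) => slots p.1 p.2.1 p.2.2) := by
    unfold slots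
    refine Poly.flatMap (F := fun (p : ℕ × ℕ × (Lit ℕ × Lit ℕ × Lit ℕ)) (l : Lit ℕ) =>
      [tm p.1 (hb l) (1 + 2 * p.2.1), tm p.1 (hb l) (2 + 2 * p.2.1)]) (by fun_prop) ?_
    refine Poly.cons (htm.comp (f := fun x : (ℕ × ℕ × (Lit ℕ × Lit ℕ × Lit ℕ)) × Lit ℕ =>
      (x.1.1, hb x.2, 1 + 2 * x.1.2.1)) ?_) (Poly.cons (htm.comp
        (f := fun x : (ℕ × ℕ × (Lit ℕ × Lit ℕ × Lit ℕ)) × Lit ℕ =>
          (x.1.1, hb x.2, 2 + 2 * x.1.2.1)) ?_) (Poly.const _))
    · exact Poly.pair (by fun_prop) (Poly.pair (hhb.comp (by fun_prop)) (by fun_prop))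
    · exact Poly.pair (by fun_prop) (Poly.pair (hhb.comp (by fun_prop)) (by fun_prop))
  have hlt : Poly (fun p : F3 × ℕ => ltimes p.1 p.2) := by
    unfold ltimes
    refine Poly.ite (by fun_prop) ?_ ?_
    · refine Poly.cons (htm.comp (f := fun p : F3 × ℕ => (p.1.length, 2 * p.2, 0)) (by fun_prop))
        (Poly.cons (htm.comp (f := fun p : F3 × ℕ => (p.1.length, 2 * p.2 + 1, 0)) (by fun_prop))
        (Poly.cons (htm.comp (f := fun p : F3 × ℕ => (p.1.length, 2 * p.2 + 1,
          2 * p.1.length + 1)) (by fun_prop)) (Poly.const _)))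
    · exact hsl.comp (f := fun p : F3 × ℕ => (p.1.length, p.2 - (3 * p.1.length + 1),
        p.1.getD (p.2 - (3 * p.1.length + 1)) ((true, 0), (true, 0), (true, 0)))) (by fun_prop)
  have hS : Poly (fun φ : F3 => (List.range (TT φ.length)).map (snap φ)) := by
    refine Poly.map hr ?_
    unfold snap
    refine Poly.filter (l := fun p : F3 × ℕ => edges p.1.length) (p := fun p e =>
      decide (e.2 = e.1 + 1) || decide (p.2 ∈ ltimes p.1 e.1)) (hE.comp (by fun_prop)) ?_
    refine Poly.or (by fun_prop) (Poly.dec_mem (by fun_prop) ?_)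
    exact hlt.comp (f := fun x : (F3 × ℕ) × (ℕ × ℕ) => (x.1.1, x.2.1)) (by fun_prop)
  have hT : Poly (fun φ : F3 => TT φ.length) := by
    unfold TT
    refine Poly.add (htm.comp (f := fun φ : F3 => (φ.length, 6 * φ.length, 0)) (by fun_prop))
      (Poly.const 1)
  unfold inst
  exact Poly.pair (Poly.pair (by fun_prop) (Poly.pair hE (Poly.pair (Poly.const 0) hS))) hT

end Pool.Agent.NPC.R543.DMVP
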