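import Mathlib
import Pool.Agent.R543.DMVP.Red

/-!
# Structure of the reduced instances
-/

namespace Pool.Agent.NPC.R543.DMVP

open Pool.Agent.R543.DMVP

theorem mem_edges {N u v : ℕ} : (u, v) ∈ edges N ↔
    (u < 4 * N ∧ v = u + 1) ∨ (u < 4 * N + 1 ∧ v = 4 * N + 1 + u) := by
  unfold edges
  simp only [List.mem_append, List.mem_map, List.mem_range, Prod.mk.injEq]
  constructor
  · rintro (⟨a, h1, h2, h3⟩ | ⟨a, h1, h2, h3⟩)
    · left; subst h2; exact ⟨h1, h3.symm⟩
    · right; subst h2; exact ⟨h1, h3.symm⟩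
  · rintro (⟨h1, h2⟩ | ⟨h1, h2⟩)
    · left; exact ⟨u, h1, rfl, h2.symm⟩
    · right; exact ⟨u, h1, rfl, h2.symm⟩

theorem edges_nodup {N : ℕ} (hN : 1 ≤ N) : (edges N).Nodup := by
  unfold edges
  rw [List.nodup_append]
  refine ⟨List.Nodup.map (fun a b h => by simpa using h) List.nodup_range,
    List.Nodup.map (fun a b h => by simpa using h) List.nodup_range, ?_⟩
  intro a ha b hb hab
  subst hab
  simp only [List.mem_map, List.mem_range] at ha hb
  obtain ⟨i, hi, rfl⟩ := ha
  obtain ⟨j, hj, h⟩ := hb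
  simp only [Prod.mk.injEq] at h
  omega

theorem tm_lt {N q x q' x' : ℕ} (h : q * (2 * N + 2) + x < q' * (2 * N + 2) + x') :
    tm N q x < tm N q' x' := by
  unfold tm
  exact Nat.mul_lt_mul_of_pos_left (by omega) (by omega)

theorem tm_le {N q x q' x' : ℕ} (h : q * (2 * N + 2) + x ≤ q' * (2 * N + 2) + x') :
    tm N q x ≤ tm N q' x' := by
  unfold tm
  exact Nat.mul_le_mul_left _ (by omega)

theorem mem_slots {N j x : ℕ} {c : Lit ℕ × Lit ℕ × Lit ℕ} : x ∈ slots N j c ↔
    ∃ l ∈ [c.1, c.2.1, c.2.2], x = tm N (hb l) (1 + 2 * j) ∨ x = tm N (hb l) (2 + 2 * j) := by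
  unfold slots
  rw [List.mem_flatMap]
  constructor
  · rintro ⟨l, hl, h⟩
    exact ⟨l, hl, by simpa using h⟩
  · rintro ⟨l, hl, h⟩
    exact ⟨l, hl, by simpa using h⟩

theorem ltimes_var {φ : F3} {i x : ℕ} (hi : i ≤ 3 * φ.length) : x ∈ ltimes φ i ↔
    x = tm φ.length (2 * i) 0 ∨ x = tm φ.length (2 * i + 1) 0 ∨
      x = tm φ.length (2 * i + 1) (2 * φ.length + 1) := by
  unfold ltimes
  rw [if_pos hi]
  simp

theorem ltimes_clause {φ : F3} {j x : ℕ} {c : Lit ℕ × Lit ℕ × Lit ℕ} (hc : φ[j]? = some c) :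
    x ∈ ltimes φ (3 * φ.length + 1 + j) ↔ ∃ l ∈ [c.1, c.2.1, c.2.2],
      x = tm φ.length (hb l) (1 + 2 * j) ∨ x = tm φ.length (hb l) (2 + 2 * j) := by
  unfold ltimes
  rw [if_neg (by omega), show 3 * φ.length + 1 + j - (3 * φ.length + 1) = j by omega,
    List.getD_eq_getElem?_getD, hc, Option.getD_some, mem_slots]

theorem hb_lt {φ : F3} (hφ : Bounded3 φ) {c : Lit ℕ × Lit ℕ × Lit ℕ} (hc : c ∈ φ) {l : Lit ℕ}
    (hl : l ∈ [c.1, c.2.1, c.2.2]) : l.2 < 3 * φ.length ∧ hb l < 6 * φ.length := by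
  have h := hφ c hc
  have h1 : l.2 < 3 * φ.length := by
    simp only [List.mem_cons, List.not_mem_nil, or_false] at hl
    rcases hl with rfl | rfl | rfl
    · exact h.1
    · exact h.2.1
    · exact h.2.2
  refine ⟨h1, ?_⟩
  unfold hb
  cases l.1 <;> simp <;> omega

theorem tm_half_lt {N q x k : ℕ} (hq : q < k) (hx : x < 2 * N + 2) : tm N q x < tm N k 0 := by
  refine tm_lt ?_
  have : (q + 1) * (2 * N + 2) ≤ k * (2 * N + 2) := Nat.mul_le_mul_right _ hq
  rw [Nat.add_mul] at this
  omega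

/-- every leaf edge is present at some time before the deadline -/
theorem exists_ltimes {φ : F3} (hφ : Bounded3 φ) {i : ℕ} (hi : i < 4 * φ.length + 1) :
    ∃ x < TT φ.length, x ∈ ltimes φ i := by
  rcases Nat.lt_or_ge (3 * φ.length) i with h | h
  · obtain ⟨j, rfl⟩ := Nat.exists_eq_add_of_le (show 3 * φ.length + 1 ≤ i by omega)
    have hj : j < φ.length := by omega
    have hc : φ[j]? = some φ[j] := List.getElem?_eq_getElem hj
    refine ⟨tm φ.length (hb φ[j].1) (1 + 2 * j), ?_, (ltimes_clause hc).2 ⟨_, by simp, Or.inl rfl⟩⟩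
    have h1 := (hb_lt hφ (List.getElem_mem hj) (l := φ[j].1) (by simp)).2
    have h2 := tm_half_lt (N := φ.length) (x := 1 + 2 * j) h1 (by omega)
    unfold TT
    omega
  · refine ⟨tm φ.length (2 * i) 0, ?_, (ltimes_var h).2 (Or.inl rfl)⟩
    have h2 : tm φ.length (2 * i) 0 ≤ tm φ.length (6 * φ.length) 0 :=
      tm_le (Nat.add_le_add_right (Nat.mul_le_mul_right _ (by omega)) _)
    unfold TT
    omega

theorem inst_n (φ : F3) : (inst φ).n = 8 * φ.length + 2 := rfl
theorem inst_E (φ : F3) : (inst φ).E = edges φ.length := rfl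
theorem inst_s (φ : F3) : (inst φ).s = 0 := rfl
theorem inst_S (φ : F3) : (inst φ).S = (List.range (TT φ.length)).map (snap φ) := rfl

theorem inst_S_length (φ : F3) : (inst φ).S.length = TT φ.length := by
  rw [inst_S, List.length_map, List.length_range]

theorem getD_snap (φ : F3) {x : ℕ} (hx : x < TT φ.length) :
    (inst φ).S.getD (x % (inst φ).S.length) [] = snap φ x := by
  rw [inst_S_length, Nat.mod_eq_of_lt hx, inst_S, List.getD_eq_getElem _ _ (by simpa using hx)]
  simp

theorem mem_snap {φ : F3} {x u v : ℕ} (hN : 1 ≤ φ.length) : (u, v) ∈ snap φ x ↔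
    (u < 4 * φ.length ∧ v = u + 1) ∨
      (u < 4 * φ.length + 1 ∧ v = 4 * φ.length + 1 + u ∧ x ∈ ltimes φ u) := by
  unfold snap
  simp only [List.mem_filter, mem_edges, Bool.or_eq_true, decide_eq_true_eq]
  constructor
  · rintro ⟨h1 | h1, h2 | h2⟩
    · exact Or.inl h1
    · exact Or.inl h1
    · omega
    · exact Or.inr ⟨h1.1, h1.2, h2⟩
  · rintro (h | h)
    · exact ⟨Or.inl h, Or.inl h.2⟩
    · exact ⟨Or.inr ⟨h.1, h.2.1⟩, Or.inr h.2.2⟩

theorem present_iff {φ : F3} {x u v : ℕ} (hN : 1 ≤ φ.length) (hx : x < TT φ.length) :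
    (inst φ).Present x u v ↔
      ((u < 4 * φ.length ∧ v = u + 1) ∨
        (u < 4 * φ.length + 1 ∧ v = 4 * φ.length + 1 + u ∧ x ∈ ltimes φ u)) ∨
      ((v < 4 * φ.length ∧ u = v + 1) ∨
        (v < 4 * φ.length + 1 ∧ u = 4 * φ.length + 1 + v ∧ x ∈ ltimes φ v)) := by
  unfold Inst.Present
  rw [getD_snap φ hx, mem_snap hN, mem_snap hN]

theorem graph_adj {φ : F3} {u v : Fin (inst φ).n} : (inst φ).graph.Adj u v ↔
    u ≠ v ∧ (((u.val < 4 * φ.length ∧ v.val = u.val + 1) ∨
      (u.val < 4 * φ.length + 1 ∧ v.val = 4 * φ.length + 1 + u.val)) ∨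
      ((v.val < 4 * φ.length ∧ u.val = v.val + 1) ∨
      (v.val < 4 * φ.length + 1 ∧ u.val = 4 * φ.length + 1 + v.val))) := by
  unfold Inst.graph
  rw [SimpleGraph.fromRel_adj, inst_E, mem_edges, mem_edges]

theorem isTree (φ : F3) : (inst φ).graph.IsTree := by
  have hn : (inst φ).n = 8 * φ.length + 2 := rfl
  let par : Fin (inst φ).n → Fin (inst φ).n := fun v =>
    ⟨if v.val ≤ 4 * φ.length then v.val - 1 else v.val - (4 * φ.length + 1), by
      have := v.isLt
      split_ifs <;> omega⟩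
  have hpar : ∀ v, (par v).val =
      if v.val ≤ 4 * φ.length then v.val - 1 else v.val - (4 * φ.length + 1) := fun v => rfl
  refine isTree_of_parent (par := par) (o := ⟨0, by omega⟩) (lev := fun v => v.val) ?_ ?_ ?_
  · intro v hv
    have hv0 : v.val ≠ 0 := fun h => hv (Fin.ext h)
    have := v.isLt
    rw [graph_adj]
    have h1 := hpar v
    refine ⟨fun h => ?_, ?_⟩
    · have h2 := congrArg Fin.val h
      rw [h1] at h2
      split_ifs at h2 <;> omega
    · rw [h1]
      split_ifs <;> omega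
  · intro v hv
    have hv0 : v.val ≠ 0 := fun h => hv (Fin.ext h)
    have h1 := hpar v
    change (par v).val < v.val
    rw [h1]
    split_ifs <;> omega
  · intro u v huv
    rw [graph_adj] at huv
    have h1 := hpar u
    have h2 := hpar v
    obtain ⟨_, (h | h) | (h | h)⟩ := huv
    · right
      refine ⟨fun h' => ?_, Fin.ext ?_⟩
      · have := congrArg Fin.val h'
        change v.val = 0 at this
        omega
      · rw [h2]
        split_ifs <;> omega
    · right
      refine ⟨fun h' => ?_, Fin.ext ?_⟩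
      · have := congrArg Fin.val h'
        change v.val = 0 at this
        omega
      · rw [h2]
        split_ifs <;> omega
    · left
      refine ⟨fun h' => ?_, Fin.ext ?_⟩
      · have := congrArg Fin.val h'
        change u.val = 0 at this
        omega
      · rw [h1]
        split_ifs <;> omega
    · left
      refine ⟨fun h' => ?_, Fin.ext ?_⟩
      · have := congrArg Fin.val h'
        change u.val = 0 at this
        omega
      · rw [h1]
        split_ifs <;> omega

theorem valid {φ : F3} (hφ : Bounded3 φ) (hN : 1 ≤ φ.length) : (inst φ).Valid := by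
  have hT : 1 ≤ TT φ.length := by unfold TT; omega
  refine ⟨?_, edges_nodup hN, isTree φ, ?_, ?_, ?_, ?_⟩
  · rintro ⟨u, v⟩ he
    rw [inst_E, mem_edges] at he
    rw [inst_n]
    simp only
    omega
  · rw [inst_s, inst_n]
    omega
  · rw [inst_S_length]
    exact hT
  · intro L hL
    rw [inst_S, List.mem_map] at hL
    obtain ⟨x, _, rfl⟩ := hL
    exact List.filter_sublist
  · rintro ⟨u, v⟩ he
    rw [inst_E, mem_edges] at he
    rw [inst_S]
    rcases he with h | h
    · exact ⟨snap φ 0, List.mem_map.2 ⟨0, List.mem_range.2 hT, rfl⟩, (mem_snap hN).2 (Or.inl h)⟩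
    · obtain ⟨x, hx, hx'⟩ := exists_ltimes hφ h.1
      exact ⟨snap φ x, List.mem_map.2 ⟨x, List.mem_range.2 hx, rfl⟩,
        (mem_snap hN).2 (Or.inr ⟨h.1, h.2, hx'⟩)⟩

theorem maxDeg3 (φ : F3) : (inst φ).MaxDeg3 := by
  intro v
  rw [← Set.ncard_image_of_injective _ (f := (Fin.val : Fin (inst φ).n → ℕ)) Fin.val_injective]
  by_cases hv : v.val < 4 * φ.length + 1
  · have hsub : (Fin.val : Fin (inst φ).n → ℕ) '' (inst φ).graph.neighborSet v ⊆
        (({v.val - 1, v.val + 1, 4 * φ.length + 1 + v.val} : Finset ℕ) : Set ℕ) := by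
      rintro _ ⟨u, hu, rfl⟩
      rw [SimpleGraph.mem_neighborSet, graph_adj] at hu
      simp only [Finset.coe_insert, Finset.coe_singleton, Set.mem_insert_iff,
        Set.mem_singleton_iff]
      omega
    refine (Set.ncard_le_ncard hsub (Finset.finite_toSet _)).trans ?_
    rw [Set.ncard_coe_finset]
    exact Finset.card_le_three
  · have hsub : (Fin.val : Fin (inst φ).n → ℕ) '' (inst φ).graph.neighborSet v ⊆
        (({v.val - (4 * φ.length + 1)} : Finset ℕ) : Set ℕ) := by
      rintro _ ⟨u, hu, rfl⟩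
      rw [SimpleGraph.mem_neighborSet, graph_adj] at hu
      simp only [Finset.coe_singleton, Set.mem_singleton_iff]
      omega
    refine (Set.ncard_le_ncard hsub (Finset.finite_toSet _)).trans ?_
    rw [Set.ncard_coe_finset]
    simp

end Pool.Agent.NPC.R543.DMVP
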