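import Mathlib
import Pool.Agent.R543.DMVP.Struct

/-!
# A satisfying assignment gives a movement that covers the caterpillar in time
-/

namespace Pool.Agent.NPC.R543.DMVP

open Pool.Agent.R543.DMVP

variable {φ : F3}

theorem self {I : Inst} {x u : ℕ} {C : Set ℕ} (h : Reach I x u C) : Reach I x u (insert u C) := by
  obtain ⟨w, h1, h2, h3⟩ := h
  refine ⟨w, h1, h2, fun c hc => ?_⟩
  rcases hc with rfl | hc
  · exact ⟨x, le_rfl, h2⟩
  · exact h3 c hc

theorem travel_aux (hN : 1 ≤ φ.length) {y i : ℕ} (hy : y ≤ TT φ.length)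
    (hi : i < 4 * φ.length + 1) : ∀ (d x u : ℕ) (C : Set ℕ), u < 4 * φ.length + 1 →
      (u ≤ i + d) → (i ≤ u + d) → x + d ≤ y → Reach (inst φ) x u C → Reach (inst φ) y i C := by
  intro d
  induction d with
  | zero =>
    intro x u C hu h1 h2 h3 h
    have : u = i := by omega
    subst this
    exact h.wait (by omega)
  | succ d ih =>
    intro x u C hu h1 h2 h3 h
    rcases lt_trichotomy u i with h4 | h4 | h4
    · refine ih (x + 1) (u + 1) C (by omega) (by omega) (by omega) (by omega) ?_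
      refine (h.step (v := u + 1) (Or.inr ?_)).mono (Set.subset_insert _ _)
      rw [present_iff hN (by omega)]
      left; left; omega
    · subst h4
      exact h.wait (by omega)
    · refine ih (x + 1) (u - 1) C (by omega) (by omega) (by omega) (by omega) ?_
      refine (h.step (v := u - 1) (Or.inr ?_)).mono (Set.subset_insert _ _)
      rw [present_iff hN (by omega)]
      right; left; omega

/-- the agent can be at a spine vertex in time for the label `ℓ`, having covered `C` -/
def Ready (φ : F3) (ℓ : ℕ) (C : Set ℕ) : Prop :=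
  ∃ x u, u < 4 * φ.length + 1 ∧ x + 4 * φ.length ≤ (4 * φ.length + 1) * ℓ ∧ Reach (inst φ) x u C

theorem Ready.mono {ℓ ℓ' : ℕ} {C D : Set ℕ} (h : Ready φ ℓ C) (hl : ℓ ≤ ℓ') (hD : D ⊆ C) :
    Ready φ ℓ' D := by
  obtain ⟨x, u, h1, h2, h3⟩ := h
  exact ⟨x, u, h1, h2.trans (Nat.mul_le_mul_left _ hl), h3.mono hD⟩

theorem enter_leaf (hN : 1 ≤ φ.length) {ℓ i : ℕ} {C : Set ℕ} (h : Ready φ ℓ C)
    (hi : i < 4 * φ.length + 1) (h1 : (4 * φ.length + 1) * ℓ ∈ ltimes φ i)
    (h2 : (4 * φ.length + 1) * ℓ < TT φ.length) :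
    Reach (inst φ) ((4 * φ.length + 1) * ℓ + 1) (4 * φ.length + 1 + i)
      (insert (4 * φ.length + 1 + i) (insert i C)) := by
  obtain ⟨x, u, hu, hx, hr⟩ := h
  have hr1 := self (travel_aux hN h2.le hi (4 * φ.length) x u C hu (by omega) (by omega) hx hr)
  refine hr1.step (Or.inr ?_)
  rw [present_iff hN h2]
  left; right
  exact ⟨hi, rfl, h1⟩

theorem visit (hN : 1 ≤ φ.length) {ℓ ℓ' i : ℕ} {C : Set ℕ} (h : Ready φ ℓ C) (hl : ℓ < ℓ')
    (hi : i < 4 * φ.length + 1) (h1 : (4 * φ.length + 1) * ℓ ∈ ltimes φ i)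
    (h1' : (4 * φ.length + 1) * ℓ' ∈ ltimes φ i)
    (h2 : (4 * φ.length + 1) * ℓ' < TT φ.length) :
    Ready φ (ℓ' + 1) (insert (4 * φ.length + 1 + i) (insert i C)) := by
  have h3 : (4 * φ.length + 1) * ℓ < (4 * φ.length + 1) * ℓ' :=
    Nat.mul_lt_mul_of_pos_left hl (by omega)
  have hr := enter_leaf hN h hi h1 (h3.trans h2)
  have hr2 := (hr.wait (y := (4 * φ.length + 1) * ℓ') (by omega)).step (v := i) (Or.inr (by
    rw [present_iff hN h2]
    right; right
    exact ⟨hi, rfl, h1'⟩))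
  refine ⟨(4 * φ.length + 1) * ℓ' + 1, i, hi, ?_, hr2.mono (Set.subset_insert _ _)⟩
  rw [Nat.mul_add]
  omega

/-- vertices of clauses among the first `k` that contain the literal `l` -/
def cv (φ : F3) (k : ℕ) (l : Lit ℕ) : Set ℕ :=
  {x | ∃ j < k, ∃ c, φ[j]? = some c ∧ l ∈ [c.1, c.2.1, c.2.2] ∧
    (x = 3 * φ.length + 1 + j ∨ x = 4 * φ.length + 1 + (3 * φ.length + 1 + j))}

theorem hb_inj {l l' : Lit ℕ} (h : hb l = hb l') : l = l' := by
  obtain ⟨s, v⟩ := l
  obtain ⟨s', v'⟩ := l'
  unfold hb at h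
  simp only at h
  cases s <;> cases s' <;> simp at h ⊢ <;> omega

theorem half (hN : 1 ≤ φ.length) {l : Lit ℕ} (hl : hb l < 6 * φ.length) {C : Set ℕ}
    (h : Ready φ (1 + hb l * (2 * φ.length + 2) + 1) C) : ∀ k ≤ φ.length,
      Ready φ (1 + hb l * (2 * φ.length + 2) + (1 + 2 * k)) (C ∪ cv φ k l) := by
  intro k
  induction k with
  | zero =>
    intro _
    refine h.mono (by omega) ?_
    intro x hx
    rcases hx with hx | hx
    · exact hx
    · obtain ⟨j, hj, _⟩ := hx
      omega
  | succ k ih =>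
    intro hk
    have h1 := ih (by omega)
    have hkc : φ[k]? = some φ[k] := List.getElem?_eq_getElem (by omega)
    by_cases hlc : l ∈ [φ[k].1, φ[k].2.1, φ[k].2.2]
    · have e : ∀ x, 1 + hb l * (2 * φ.length + 2) + x = 1 + hb l * (2 * φ.length + 2) + x :=
        fun _ => rfl
      have h2 := visit hN (i := 3 * φ.length + 1 + k)
        (ℓ' := 1 + hb l * (2 * φ.length + 2) + (2 + 2 * k)) h1 (by omega) (by omega)
        ((ltimes_clause hkc).2 ⟨l, hlc, Or.inl rfl⟩) ((ltimes_clause hkc).2 ⟨l, hlc, Or.inr rfl⟩)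
        (by
          have := tm_half_lt (N := φ.length) (x := 2 + 2 * k) hl (by omega)
          change tm φ.length (hb l) (2 + 2 * k) < _
          unfold TT
          omega)
      refine h2.mono (by omega) ?_
      intro x hx
      rcases hx with hx | hx
      · exact Or.inr (Or.inr (Or.inl hx))
      · obtain ⟨j, hj, c, hc, hlc', hx⟩ := hx
        rcases Nat.lt_or_ge j k with hjk | hjk
        · exact Or.inr (Or.inr (Or.inr ⟨j, hjk, c, hc, hlc', hx⟩))
        · have : j = k := by omega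
          subst this
          rcases hx with rfl | rfl
          · exact Or.inr (Or.inl rfl)
          · exact Or.inl rfl
    · refine h1.mono (by omega) ?_
      intro x hx
      rcases hx with hx | hx
      · exact Or.inl hx
      · obtain ⟨j, hj, c, hc, hlc', hx⟩ := hx
        rcases Nat.lt_or_ge j k with hjk | hjk
        · exact Or.inr ⟨j, hjk, c, hc, hlc', hx⟩
        · have : j = k := by omega
          subst this
          rw [hkc, Option.some.injEq] at hc
          subst hc
          exact absurd hlc' hlc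

theorem var_step (hN : 1 ≤ φ.length) (σ : ℕ → Bool) {v : ℕ} (hv : v < 3 * φ.length) {C : Set ℕ}
    (h : Ready φ (1 + (2 * v) * (2 * φ.length + 2)) C) :
    Ready φ (1 + (2 * (v + 1)) * (2 * φ.length + 2))
      (insert (4 * φ.length + 1 + v) (insert v (C ∪ cv φ φ.length (σ v, v)))) := by
  have hm0 : tm φ.length (2 * v) 0 ∈ ltimes φ v := (ltimes_var (by omega)).2 (Or.inl rfl)
  have hm1 : tm φ.length (2 * v + 1) 0 ∈ ltimes φ v :=
    (ltimes_var (by omega)).2 (Or.inr (Or.inl rfl))
  have hm2 : tm φ.length (2 * v + 1) (2 * φ.length + 1) ∈ ltimes φ v :=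
    (ltimes_var (by omega)).2 (Or.inr (Or.inr rfl))
  have e1 : (2 * v + 1) * (2 * φ.length + 2) = (2 * v) * (2 * φ.length + 2) + (2 * φ.length + 2) := by
    rw [Nat.add_mul, Nat.one_mul]
  have e2 : (2 * (v + 1)) * (2 * φ.length + 2) =
      (2 * v) * (2 * φ.length + 2) + (2 * φ.length + 2) + (2 * φ.length + 2) := by
    rw [show 2 * (v + 1) = (2 * v + 1) + 1 by ring, Nat.add_mul (2 * v + 1), e1, Nat.one_mul]
  have hT : TT φ.length = tm φ.length (6 * φ.length) 0 + 1 := rfl
  cases hσ : σ v with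
  | true =>
    have hb1 : hb (true, v) = 2 * v + 1 := by simp [hb]
    have h1 := visit hN (i := v) (ℓ := 1 + (2 * v) * (2 * φ.length + 2))
      (ℓ' := 1 + (2 * v + 1) * (2 * φ.length + 2)) h (by omega) (by omega) hm0 hm1 (by
        have := tm_half_lt (N := φ.length) (q := 2 * v + 1) (x := 0) (k := 6 * φ.length)
          (by omega) (by omega)
        change tm φ.length (2 * v + 1) 0 < _
        omega)
    rw [← hb1] at h1
    have h2 := half hN (l := (true, v)) (by rw [hb1]; omega) h1 φ.length le_rfl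
    refine h2.mono (by rw [hb1]; omega) ?_
    intro x hx
    rcases hx with hx | hx | hx | hx
    · exact Or.inl (Or.inl hx)
    · exact Or.inl (Or.inr (Or.inl hx))
    · exact Or.inl (Or.inr (Or.inr hx))
    · exact Or.inr hx
  | false =>
    have hb1 : hb (false, v) = 2 * v := by simp [hb]
    have h1 : Ready φ (1 + hb (false, v) * (2 * φ.length + 2) + 1) C := by
      rw [hb1]
      exact h.mono (by omega) subset_rfl
    have h2 := half hN (l := (false, v)) (by rw [hb1]; omega) h1 φ.length le_rfl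
    rw [hb1] at h2
    have h3 := h2.mono (ℓ' := 1 + (2 * v + 1) * (2 * φ.length + 2)) (by omega) subset_rfl
    have h4 := visit hN (i := v) (ℓ := 1 + (2 * v + 1) * (2 * φ.length + 2))
      (ℓ' := 1 + (2 * v + 1) * (2 * φ.length + 2) + (2 * φ.length + 1)) h3 (by omega) (by omega)
      hm1 hm2 (by
        have := tm_half_lt (N := φ.length) (q := 2 * v + 1) (x := 2 * φ.length + 1)
          (k := 6 * φ.length) (by omega) (by omega)
        change tm φ.length (2 * v + 1) (2 * φ.length + 1) < _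
        omega)
    exact h4.mono (by omega) subset_rfl

theorem compl (hφ : Bounded3 φ) (hN : 1 ≤ φ.length) (h : SAT3 φ) :
    (inst φ).CoveredBy (TT φ.length) := by
  obtain ⟨σ, hσ⟩ := h
  have key : ∀ k ≤ 3 * φ.length, Ready φ (1 + (2 * k) * (2 * φ.length + 2))
      {x | ∃ v < k, x = v ∨ x = 4 * φ.length + 1 + v ∨ x ∈ cv φ φ.length (σ v, v)} := by
    intro k
    induction k with
    | zero =>
      intro _
      refine ⟨0, 0, by omega, by simp, (Reach.start (inst φ)).mono ?_⟩
      rintro x ⟨v, hv, _⟩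
      omega
    | succ k ih =>
      intro hk
      refine (var_step hN σ (by omega) (ih (by omega))).mono le_rfl ?_
      rintro x ⟨v, hv, hx⟩
      rcases Nat.lt_or_ge v k with hvk | hvk
      · exact Or.inr (Or.inr (Or.inl ⟨v, hvk, hx⟩))
      · have : v = k := by omega
        subst this
        rcases hx with hx | hx | hx
        · exact Or.inr (Or.inl hx)
        · exact Or.inl hx
        · exact Or.inr (Or.inr (Or.inr hx))
  have h1 := key (3 * φ.length) le_rfl
  have e : 2 * (3 * φ.length) = 6 * φ.length := by ring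
  rw [e] at h1
  have hTT : TT φ.length =
      (4 * φ.length + 1) * (1 + 6 * φ.length * (2 * φ.length + 2)) + 1 := rfl
  have h2 := enter_leaf hN (i := 3 * φ.length) h1 (by omega)
    ((ltimes_var le_rfl).2 (Or.inl (by rw [e]; rfl))) (by omega)
  refine h2.covered (fun v hv => ?_) (by omega)
  rw [inst_n] at hv
  have hcl : ∀ j < φ.length, ∃ u < 3 * φ.length,
      3 * φ.length + 1 + j ∈ cv φ φ.length (σ u, u) ∧
      4 * φ.length + 1 + (3 * φ.length + 1 + j) ∈ cv φ φ.length (σ u, u) := by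
    intro j hj
    have hc : φ[j]? = some φ[j] := List.getElem?_eq_getElem hj
    have : ∃ l ∈ [φ[j].1, φ[j].2.1, φ[j].2.2], σ l.2 = l.1 := by
      rcases hσ φ[j] (List.getElem_mem hj) with h | h | h
      · exact ⟨φ[j].1, by simp, h⟩
      · exact ⟨φ[j].2.1, by simp, h⟩
      · exact ⟨φ[j].2.2, by simp, h⟩
    obtain ⟨l, hl, hs⟩ := this
    have hl2 := (hb_lt hφ (List.getElem_mem hj) hl).1
    have hl' : (σ l.2, l.2) ∈ [φ[j].1, φ[j].2.1, φ[j].2.2] := by
      rw [hs]
      exact hl
    exact ⟨l.2, hl2, ⟨j, hj, _, hc, hl', Or.inl rfl⟩, ⟨j, hj, _, hc, hl', Or.inr rfl⟩⟩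
  rcases Nat.lt_or_ge v (4 * φ.length + 1) with h3 | h3
  · rcases lt_trichotomy v (3 * φ.length) with h4 | h4 | h4
    · exact Or.inr (Or.inr ⟨v, h4, Or.inl rfl⟩)
    · exact Or.inr (Or.inl h4)
    · obtain ⟨j, rfl⟩ := Nat.exists_eq_add_of_le (show 3 * φ.length + 1 ≤ v by omega)
      obtain ⟨u, hu, h5, _⟩ := hcl j (by omega)
      exact Or.inr (Or.inr ⟨u, hu, Or.inr (Or.inr h5)⟩)
  · obtain ⟨v, rfl⟩ := Nat.exists_eq_add_of_le h3
    rcases lt_trichotomy v (3 * φ.length) with h4 | h4 | h4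
    · exact Or.inr (Or.inr ⟨v, h4, Or.inr (Or.inl rfl)⟩)
    · exact Or.inl (by rw [h4])
    · obtain ⟨j, rfl⟩ := Nat.exists_eq_add_of_le (show 3 * φ.length + 1 ≤ v by omega)
      obtain ⟨u, hu, _, h5⟩ := hcl j (by omega)
      exact Or.inr (Or.inr ⟨u, hu, Or.inr (Or.inr h5)⟩)

end Pool.Agent.NPC.R543.DMVP
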