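import Mathlib
import Pool.Agent.R543.DMVP.Struct

/-!
# Covering the caterpillar in time gives a satisfying assignment
-/

namespace Pool.Agent.NPC.R543.DMVP

open Pool.Agent.R543.DMVP

variable {φ : F3} {w : ℕ → ℕ}

theorem cross (hN : 1 ≤ φ.length) (hw : (inst φ).IsWalk w) {x i : ℕ} (hx : x < TT φ.length)
    (hi : i < 4 * φ.length + 1) (hni : x ∉ ltimes φ i) :
    w x = 4 * φ.length + 1 + i ↔ w (x + 1) = 4 * φ.length + 1 + i := by
  rcases hw.2 x with h | h
  · rw [h]
  · rw [present_iff hN hx] at h
    rcases h with (h | h) | (h | h)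
    · omega
    · by_cases hi' : w x = i
      · rw [hi'] at h
        exact absurd h.2.2 hni
      · omega
    · omega
    · by_cases hi' : w (x + 1) = i
      · rw [hi'] at h
        exact absurd h.2.2 hni
      · omega

theorem enter (hN : 1 ≤ φ.length) (hw : (inst φ).IsWalk w) {x i : ℕ} (hx : x < TT φ.length)
    (h1 : w x ≠ 4 * φ.length + 1 + i) (h2 : w (x + 1) = 4 * φ.length + 1 + i) :
    w x = i ∧ x ∈ ltimes φ i := by
  rcases hw.2 x with h | h
  · exact absurd (h.symm.trans h2) h1
  · rw [present_iff hN hx] at h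
    rcases h with (h | h) | (h | h)
    · omega
    · have : w x = i := by omega
      refine ⟨this, ?_⟩
      rw [← this]
      exact h.2.2
    · omega
    · omega

theorem const (hN : 1 ≤ φ.length) (hw : (inst φ).IsWalk w) {i : ℕ} (hi : i < 4 * φ.length + 1)
    {a b : ℕ} (hab : a ≤ b) (hb : b ≤ TT φ.length) (h : ∀ x, a ≤ x → x < b → x ∉ ltimes φ i) :
    w a = 4 * φ.length + 1 + i ↔ w b = 4 * φ.length + 1 + i := by
  induction b, hab using Nat.le_induction with
  | base => rfl
  | succ b hab ih =>
    rw [ih (by omega) (fun x hx hxb => h x hx (by omega))]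
    exact cross hN hw (by omega) hi (h b hab (by omega))

/-- facts on the three times of a variable leaf -/
theorem times_lt {N v : ℕ} : tm N (2 * v) 0 < tm N (2 * v + 1) 0 ∧
    tm N (2 * v + 1) 0 < tm N (2 * v + 1) (2 * N + 1) ∧
    tm N (2 * v + 1) (2 * N + 1) < tm N (2 * (v + 1)) 0 := by
  refine ⟨tm_half_lt (by omega) (by omega), tm_lt (by omega), tm_half_lt (by omega) (by omega)⟩

theorem not_mem_of_between (hN : 1 ≤ φ.length) {v x : ℕ} (hv : v ≤ 3 * φ.length)
    (h : x < tm φ.length (2 * v) 0 ∨
      (tm φ.length (2 * v) 0 < x ∧ x < tm φ.length (2 * v + 1) 0) ∨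
      (tm φ.length (2 * v + 1) 0 < x ∧ x < tm φ.length (2 * v + 1) (2 * φ.length + 1)) ∨
      (tm φ.length (2 * v + 1) (2 * φ.length + 1) < x)) : x ∉ ltimes φ v := by
  have h1 := times_lt (N := φ.length) (v := v)
  rw [ltimes_var hv]
  omega

/-- the agent spends one of the two half blocks of a variable at its leaf -/
theorem busy (hN : 1 ≤ φ.length) (hw : (inst φ).IsWalk w)
    (hcov : ∀ v < (inst φ).n, ∃ τ ≤ TT φ.length, w τ = v) {v : ℕ} (hv : v < 3 * φ.length) :
    w (tm φ.length (2 * v) 0 + 1) = 4 * φ.length + 1 + v ∨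
      w (tm φ.length (2 * v + 1) 0 + 1) = 4 * φ.length + 1 + v := by
  have h1 := times_lt (N := φ.length) (v := v)
  have hT : tm φ.length (2 * (v + 1)) 0 < TT φ.length := by
    have : tm φ.length (2 * (v + 1)) 0 ≤ tm φ.length (6 * φ.length) 0 :=
      tm_le (Nat.add_le_add_right (Nat.mul_le_mul_right _ (by omega)) _)
    unfold TT
    omega
  have hw0 : w 0 = 0 := hw.1
  by_contra hcon
  rw [not_or] at hcon
  obtain ⟨c1, c2⟩ := hcon
  by_cases c3 : w (tm φ.length (2 * v + 1) (2 * φ.length + 1) + 1) = 4 * φ.length + 1 + v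
  · -- stuck at the leaf, so the next variable leaf is missed
    obtain ⟨τ, hτ, hwτ⟩ := hcov (4 * φ.length + 1 + (v + 1)) (by rw [inst_n]; omega)
    rcases Nat.lt_or_ge (tm φ.length (2 * (v + 1)) 0) τ with h | h
    · have := (const hN hw (i := v) (by omega) (a := tm φ.length (2 * v + 1) (2 * φ.length + 1) + 1)
        (b := τ) (by omega) hτ (fun x hx hx' => not_mem_of_between hN (by omega)
          (Or.inr (Or.inr (Or.inr (by omega)))))).1 c3
      omega
    · have := (const hN hw (i := v + 1) (by omega) (a := 0) (b := τ) (by omega) hτ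
        (fun x hx hx' => not_mem_of_between hN (by omega) (Or.inl (by omega)))).2 hwτ
      omega
  · obtain ⟨τ, hτ, hwτ⟩ := hcov (4 * φ.length + 1 + v) (by rw [inst_n]; omega)
    rcases Nat.lt_or_ge (tm φ.length (2 * v) 0) τ with h2 | h2
    · rcases Nat.lt_or_ge (tm φ.length (2 * v + 1) 0) τ with h3 | h3
      · rcases Nat.lt_or_ge (tm φ.length (2 * v + 1) (2 * φ.length + 1)) τ with h4 | h4
        · exact c3 ((const hN hw (i := v) (by omega)
            (a := tm φ.length (2 * v + 1) (2 * φ.length + 1) + 1)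
            (b := τ) (by omega) hτ (fun x hx hx' => not_mem_of_between hN (by omega)
              (Or.inr (Or.inr (Or.inr (by omega)))))).2 hwτ)
        · exact c2 ((const hN hw (i := v) (by omega)
            (a := tm φ.length (2 * v + 1) 0 + 1)
            (b := τ) (by omega) hτ (fun x hx hx' => not_mem_of_between hN (by omega)
              (Or.inr (Or.inr (Or.inl (by omega)))))).2 hwτ)
      · exact c1 ((const hN hw (i := v) (by omega)
            (a := tm φ.length (2 * v) 0 + 1)
            (b := τ) (by omega) hτ (fun x hx hx' => not_mem_of_between hN (by omega)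
              (Or.inr (Or.inl (by omega))))).2 hwτ)
    · have := (const hN hw (i := v) (by omega)
            (a := 0) (b := τ) (by omega) hτ (fun x hx hx' => not_mem_of_between hN (by omega)
              (Or.inl (by omega)))).2 hwτ
      omega

theorem sound (hφ : Bounded3 φ) (hN : 1 ≤ φ.length) (h : (inst φ).CoveredBy (TT φ.length)) :
    SAT3 φ := by
  obtain ⟨w, hw, hcov⟩ := h
  have hw0 : w 0 = 0 := hw.1
  classical
  let σ : ℕ → Bool := fun v => decide (w (tm φ.length (2 * v) 0 + 1) = 4 * φ.length + 1 + v)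
  have key : ∀ c ∈ φ, ∃ l ∈ [c.1, c.2.1, c.2.2], σ l.2 = l.1 := by
    intro c hc
    obtain ⟨j, hj, hcj⟩ := List.getElem_of_mem hc
    have hc' : φ[j]? = some c := by rw [List.getElem?_eq_getElem hj, hcj]
    -- the time of entering the leaf
    have hex : ∃ τ, w τ = 4 * φ.length + 1 + (3 * φ.length + 1 + j) := by
      obtain ⟨τ, _, h⟩ := hcov (4 * φ.length + 1 + (3 * φ.length + 1 + j)) (by rw [inst_n]; omega)
      exact ⟨τ, h⟩
    have hle : Nat.find hex ≤ TT φ.length := by
      obtain ⟨τ, h1, h2⟩ := hcov (4 * φ.length + 1 + (3 * φ.length + 1 + j))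
        (by rw [inst_n]; omega)
      exact (Nat.find_min' hex h2).trans h1
    have hpos : Nat.find hex ≠ 0 := by
      intro h0
      have := Nat.find_spec hex
      rw [h0] at this
      omega
    obtain ⟨x, hx⟩ := Nat.exists_eq_succ_of_ne_zero hpos
    have hx1 : w x ≠ 4 * φ.length + 1 + (3 * φ.length + 1 + j) :=
      Nat.find_min hex (by omega)
    have hx2 : w (x + 1) = 4 * φ.length + 1 + (3 * φ.length + 1 + j) := by
      have := Nat.find_spec hex
      rwa [hx] at this
    have hxT : x < TT φ.length := by omega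
    obtain ⟨e1, e2⟩ := enter hN hw hxT hx1 hx2
    rw [ltimes_clause hc'] at e2
    obtain ⟨l, hl, hxl⟩ := e2
    refine ⟨l, hl, ?_⟩
    obtain ⟨hlv, hlb⟩ := hb_lt hφ hc hl
    have hxe : ∃ p, 1 ≤ p ∧ p ≤ 2 * φ.length ∧ x = tm φ.length (hb l) p := by
      rcases hxl with h | h
      · exact ⟨_, by omega, by omega, h⟩
      · exact ⟨_, by omega, by omega, h⟩
    obtain ⟨p, hp1, hp2, hxp⟩ := hxe
    have ht := times_lt (N := φ.length) (v := l.2)
    obtain ⟨s, v⟩ := l
    simp only at hlv ht ⊢
    cases s with
    | true =>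
      have hq : hb (true, v) = 2 * v + 1 := by simp [hb]
      rw [hq] at hxp
      have l1 : tm φ.length (2 * v + 1) 0 < tm φ.length (2 * v + 1) p := tm_lt (by omega)
      have l2 : tm φ.length (2 * v + 1) p < tm φ.length (2 * v + 1) (2 * φ.length + 1) :=
        tm_lt (by omega)
      rcases busy hN hw hcov hlv with h | h
      · simp [σ, h]
      · have := (const hN hw (i := v) (by omega)
            (a := tm φ.length (2 * v + 1) 0 + 1)
            (b := x) (by omega) hxT.le (fun y hy hy' => not_mem_of_between hN (by omega)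
              (Or.inr (Or.inr (Or.inl (by omega)))))).1 h
        omega
    | false =>
      have hq : hb (false, v) = 2 * v := by simp [hb]
      rw [hq] at hxp
      have l1 : tm φ.length (2 * v) 0 < tm φ.length (2 * v) p := tm_lt (by omega)
      have l2 : tm φ.length (2 * v) p < tm φ.length (2 * v + 1) 0 :=
        tm_half_lt (by omega) (by omega)
      simp only [σ, decide_eq_false_iff_not]
      intro h
      have := (const hN hw (i := v) (by omega)
            (a := tm φ.length (2 * v) 0 + 1)
            (b := x) (by omega) hxT.le (fun y hy hy' => not_mem_of_between hN (by omega)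
              (Or.inr (Or.inl (by omega))))).1 h
      omega
  refine ⟨σ, fun c hc => ?_⟩
  obtain ⟨l, hl, h⟩ := key c hc
  simp only [List.mem_cons, List.not_mem_nil, or_false] at hl
  rcases hl with rfl | rfl | rfl
  · exact Or.inl h
  · exact Or.inr (Or.inl h)
  · exact Or.inr (Or.inr h)

end Pool.Agent.NPC.R543.DMVP
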